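import Pool.Agent.H249.MZ.Main

/-!
# When do all relations between multiple zeta values follow from finitely many?

`H = ℚ[π²] ⊗ Sh` is the graded algebra of the problem: the polynomials in `π²` over the shuffle algebra `Sh` of
`Pool.Agent.H249.MZ.Sh` (the letter `a` stands for `f_(2a+3)`, the shuffle product is defined by the usual recursion);
`part n` is its part of degree `n`. The derivation `cut a` of `H` removes the first letter of a word if it
is `a`, and sends all other words to zero; the Lie algebra `F` generated by the `cut a` is the free Lie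
algebra of the problem, in its action on `H`. It is graded: an element of degree `k` lowers the degrees by `k`.

The external direct sum of the spaces `Z w` of multiple zeta values of weight `w` is the algebra of the
polynomials `∑ z_w X^w`, `z_w ∈ Z w`. A period map is a surjective homomorphism of graded algebras
from `H` to this algebra (it exists by the theorems of Goncharov, Terasoma and Brown). Its kernel is the ideal of
all relations. The theorem: for every period map, the ideal of the relations is finitely generated if and only if
all elements of `F` of sufficiently large degree preserve it (act on multiple zeta values).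

Proof. A finite set of relations is killed by all elements of `F` of large degree. Conversely, if
the tail `F_(>N)` preserves the ideal, slices (elements `s` with `y s = 1`) show that the ideal is generated by
relations killed by `F_(>N)`, and that the algebra of the elements of `H` killed by `F_(>N)` is finitely generated:
one adds to `F_(>N)` the homogeneous elements of the degrees `N, N-1, ..., 1` one at a time, each time removing one
polynomial variable from the algebra of the invariants, until `ℚ[π²]` is left.
-/

set_option autoImplicit false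

open Submodule Module Polynomial

namespace Pool.Agent.Results.MP_f3dc73_nt.FinitelyManyRelations

/-- The algebra `H`: polynomials in `π²` over the shuffle algebra. -/
def H : Type := Pool.Agent.H249.MZ.HH

noncomputable instance instRing : CommRing H := Pool.Agent.H249.MZ.ringHH
noncomputable instance instAlg : Algebra ℚ H := Pool.Agent.H249.MZ.algHH

/-- The part of degree `n` of `H`, spanned by the products of `(π²)^i` and words `u` with `2 i + (weight of u) = n`. -/
noncomputable def part (n : ℕ) : Submodule ℚ H := Pool.Agent.H249.MZ.deg n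

/-- The derivations of `H`. -/
def Der : Type := Derivation ℚ Pool.Agent.H249.MZ.HH Pool.Agent.H249.MZ.HH

/-- The value of a derivation. -/
noncomputable def Der.app (d : Der) (x : H) : H := Pool.Agent.H249.MZ.dapp d x

/-- The Lie algebras of derivations of `H`. -/
def LieSub : Type := LieSubalgebra ℚ (Derivation ℚ Pool.Agent.H249.MZ.HH Pool.Agent.H249.MZ.HH)

/-- `S` contains `d`. -/
def LieSub.Has (S : LieSub) (d : Der) : Prop := Pool.Agent.H249.MZ.lhas S d

/-- The free Lie algebra `F`, generated by the derivations `cut a`. -/
noncomputable def F : LieSub := Pool.Agent.H249.MZ.Fl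

/-- The multiple zeta value `ζ(n_1, ..., n_m)`. -/
noncomputable def mzv (m : ℕ) (n : Fin m → ℕ) : ℝ :=
  ∑' k : {k : Fin m → ℕ // StrictMono k ∧ ∀ i, 0 < k i}, ∏ i, (((k.1 i : ℕ) : ℝ) ^ n i)⁻¹

/-- The space of the multiple zeta values of weight `w`. -/
noncomputable def Z (w : ℕ) : Submodule ℚ ℝ := Submodule.span ℚ {x : ℝ | ∃ m : ℕ, ∃ n : Fin m → ℕ,
  (∀ i, 1 ≤ n i) ∧ (∀ i : Fin m, (i : ℕ) + 1 = m → 2 ≤ n i) ∧ ∑ i, n i = w ∧ x = mzv m n}

/-- A surjective homomorphism of graded algebras from `H` to the algebra of the polynomials `∑ z_w X^w`, `z_w ∈ Z w`. -/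
def IsPeriodMap (ev : H →ₐ[ℚ] ℝ[X]) : Prop :=
  ∀ w, ∀ p : ℝ[X], (∃ x ∈ part w, ev x = p) ↔ ∃ z ∈ Z w, monomial w z = p

/-- The derivation `d` has degree `k`: it lowers all degrees by `k`. -/
def Lowers (k : ℕ) (d : Der) : Prop :=
  ∀ w, ∀ x ∈ part w, (∀ v, v + k = w → d.app x ∈ part v) ∧ (w < k → d.app x = 0)

section

open Pool.Agent.H249.MZ

theorem period_iff (ev : H →ₐ[ℚ] ℝ[X]) : IsPeriodMap ev ↔ Main.IsPeriodMap ev := by
  refine forall_congr' fun w => ?_
  constructor
  · intro h
    ext p
    exact h p
  · intro h p
    exact (congrArg (fun V : Submodule ℚ ℝ[X] => p ∈ V) h).to_iff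

theorem core (ev : HH →ₐ[ℚ] ℝ[X]) (hev : Main.IsPeriodMap ev) :
    (RingHom.ker ev).FG ↔ ∃ N, ∀ k, N < k → ∀ d ∈ Fl.toSubmodule ⊓ Deg deg k, ∀ x ∈ RingHom.ker ev,
      d x ∈ RingHom.ker ev := by
  have hh := Main.hom_ev hev
  have hker := ker_homog hh gr_deg
  have hfg : (InvA Fl.toSubmodule).FG := by
    refine ⟨{X}, ?_⟩
    apply le_antisymm
    · rw [Algebra.adjoin_le_iff]
      intro x hx
      rw [Finset.coe_singleton, Set.mem_singleton_iff] at hx
      rw [hx]
      intro d hd
      obtain ⟨δ, rfl, -⟩ := Fl_struct hd
      change mapD δ (monomial 1 1) = 0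
      rw [mapD_monomial, Derivation.map_one_eq_zero, map_zero]
    · intro x hx
      obtain ⟨q, rfl⟩ := Inv_Fl hx
      rw [Finset.coe_singleton]
      have h1 : q.map (algebraMap ℚ Sh) = aeval (X : HH) q := by
        have h2 : Polynomial.mapAlgHom (Algebra.ofId ℚ Sh) = aeval (X : HH) := by
          refine Polynomial.algHom_ext ?_
          rw [aeval_X, coe_mapAlgHom, Polynomial.map_X]
        exact congrArg (fun f : ℚ[X] →ₐ[ℚ] HH => f q) h2
      rw [h1]
      exact aeval_mem_adjoin_singleton ℚ X
  exact fg_iff gr_deg nondeg_Fl gr_Fl hfg hker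

end

/-- **Theorem.** For every period map `ev` the ideal of all relations is finitely generated if and only if, for some
`N`, every element of `F` of a degree larger than `N` preserves the relations. -/
theorem result (ev : H →ₐ[ℚ] ℝ[X]) (hev : IsPeriodMap ev) :
    (RingHom.ker ev).FG ↔
      ∃ N, ∀ k > N, ∀ d, F.Has d → Lowers k d → ∀ x, ev x = 0 → ev (d.app x) = 0 :=
  (core ev ((period_iff ev).mp hev)).trans
    (exists_congr fun N => ⟨fun h k hk d hd hd' x hx => h k hk d ⟨hd, hd'⟩ x hx,
      fun h k hk d hd x hx => h k hk d hd.1 hd.2 x hx⟩)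

end Pool.Agent.Results.MP_f3dc73_nt.FinitelyManyRelations
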