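import Pool.Agent.Q146.MZ.Gen
import Pool.Agent.H340R2.LW

/-!
# The multiple zeta values which are related to `π` in bounded degree

Together with the independence of different weights, the structure asked for in the question predicts
that a combination of multiple zeta values of one
weight is algebraic over `ℚ(π)` only if it is a rational multiple of a power of `π`. We consider
the relations of total degree at most `D`. Let `x` be any transcendental number, for instance `π`.
The elements of the space `𝒵_k` of the multiple zeta values of weight `k` which satisfy such a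
relation with `x` form a finite union of rational subspaces `U`, and `dim (U + ℚ + ℚ x) ≤ 2 D`,
whatever the weight is; the same is true for the space of all weights up to `w`. The integral
combinations of all multiple zeta values of weight at most `w` which are related to `x` are counted.
-/

set_option autoImplicit false

namespace Pool.Agent.Results.MP_f3dc73_nt.RelatedToPi

open Module

/-- `ζ(n_1, …, n_m)`, the sum of `∏ k_i ^ (-n_i)` over `0 < k_1 < ⋯ < k_m`. -/
noncomputable def zeta (m : ℕ) (n : Fin m → ℕ) : ℝ :=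
  ∑' k : {k : Fin m → ℕ // StrictMono k ∧ ∀ i, 0 < k i}, ∏ i, (((k.1 i : ℕ) : ℝ) ^ n i)⁻¹

/-- The arguments of the multiple zeta values of weight `k`: compositions of `k` whose last entry
is at least `2`. -/
def Admissible {k : ℕ} (c : Composition k) : Prop :=
  ∀ i : Fin c.length, (i : ℕ) + 1 = c.length → 2 ≤ c.blocksFun i

/-- The multiple zeta value with the arguments `c`. -/
noncomputable def value {k : ℕ} (c : Composition k) : ℝ := zeta c.length c.blocksFun

/-- The arguments of the multiple zeta values of weight at most `w`. -/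
abbrev Arguments (w : ℕ) : Type := (k : Fin (w + 1)) × {c : Composition k // Admissible c}

/-- The rational space generated by the multiple zeta values of weight `k` (in `ℂ`). -/
noncomputable def weight (k : ℕ) : Submodule ℚ ℂ :=
  Submodule.span ℚ {z | ∃ c : Composition k, Admissible c ∧ z = (value c : ℂ)}

/-- The rational space generated by the multiple zeta values of weight at most `w`. -/
noncomputable def upTo (w : ℕ) : Submodule ℚ ℂ := ⨆ k : Fin (w + 1), weight k

/-- The numbers `x` and `y` satisfy a nonzero polynomial relation of total degree at most `D` with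
coefficients in `F`. -/
def Related (F : Type) [Field F] [Algebra F ℂ] (D : ℕ) (x y : ℂ) : Prop :=
  ∃ P : MvPolynomial (Fin 2) F, P ≠ 0 ∧ P.totalDegree ≤ D ∧ MvPolynomial.aeval ![x, y] P = 0

/-- The numbers `x` and `y` satisfy a nonzero polynomial relation of total degree at most `D` over
some number field of degree at most `m`. -/
def RelatedOver (m D : ℕ) (x y : ℂ) : Prop :=
  ∃ F : IntermediateField ℚ ℂ, FiniteDimensional ℚ F ∧ finrank ℚ F ≤ m ∧ Related F D x y

open Classical in
/-- The integral combination of the multiple zeta values of weight at most `w` with the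
coefficients `c`. -/
noncomputable def combination {w : ℕ} (c : Arguments w → ℤ) : ℂ :=
  ∑ a : Arguments w, (c a : ℂ) * (value a.2.1 : ℂ)

theorem zeta_one (m : ℕ) (n : Fin m → ℕ) (hm : m = 1) (j : ℕ) (hn : ∀ i, n i = j) :
    zeta m n = ∑' k : ℕ, 1 / ((k : ℝ) + 1) ^ j := by
  subst hm
  let e : ℕ ≃ {k : Fin 1 → ℕ // StrictMono k ∧ ∀ i, 0 < k i} :=
    { toFun := fun k => ⟨fun _ => k + 1, Subsingleton.strictMono _, fun _ => Nat.succ_pos k⟩
      invFun := fun k => k.1 0 - 1
      left_inv := fun k => by simp
      right_inv := fun k => by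
        apply Subtype.ext
        funext i
        have h1 : i = 0 := Subsingleton.elim _ _
        subst h1
        have h2 := k.2.2 0
        simp only
        omega }
  rw [zeta, ← e.tsum_eq]
  refine tsum_congr fun k => ?_
  rw [Fin.prod_univ_one, hn 0]
  change (((k + 1 : ℕ) : ℝ) ^ j)⁻¹ = _
  rw [one_div]
  push_cast
  rfl

theorem mem_range_of_odd {w : ℕ} (j : ℕ) (h1 : 1 < j) (h2 : j ≤ w) :
    ∃ a : Arguments w, value a.2.1 = ∑' k : ℕ, 1 / ((k : ℝ) + 1) ^ j := by
  have hj : 0 < j := by omega
  have hadm : Admissible (Composition.single j hj) := by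
    intro i _
    rw [Composition.single_blocksFun]
    omega
  refine ⟨⟨⟨j, by omega⟩, ⟨Composition.single j hj, hadm⟩⟩, ?_⟩
  have h3 : value (Composition.single j hj) = ∑' k : ℕ, 1 / ((k : ℝ) + 1) ^ j :=
    zeta_one _ _ (Composition.single_length hj) j (fun i => Composition.single_blocksFun hj i)
  exact h3

theorem upTo_eq (w : ℕ) :
    upTo w = Submodule.span ℚ (Set.range fun a : Arguments w => ((value a.2.1 : ℝ) : ℂ)) := by
  apply le_antisymm
  · refine iSup_le fun k => Submodule.span_le.2 ?_
    rintro _ ⟨c, hc, rfl⟩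
    exact Submodule.subset_span ⟨⟨k, ⟨c, hc⟩⟩, rfl⟩
  · refine Submodule.span_le.2 ?_
    rintro _ ⟨⟨k, ⟨c, hc⟩⟩, rfl⟩
    exact (le_iSup (fun k : Fin (w + 1) => weight k) k) (Submodule.subset_span ⟨c, hc, rfl⟩)

theorem weight_finite (k : ℕ) : FiniteDimensional ℚ (weight k) := by
  apply FiniteDimensional.span_of_finite
  refine (Set.finite_range (fun c : Composition k => ((value c : ℝ) : ℂ))).subset ?_
  rintro _ ⟨c, _, rfl⟩
  exact ⟨c, rfl⟩

/-- the dimension of the space of all multiple zeta values of weight at most `w` -/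
theorem dim_le {w t : ℕ} (h : 2 ^ (66 * t + 1) ≤ w) :
    t ≤ finrank ℚ (Submodule.span ℚ
      (Set.range fun a : Arguments w => ((value a.2.1 : ℝ) : ℂ))) := by
  classical
  have hfd : FiniteDimensional ℚ (Submodule.span ℚ
      (Set.range fun a : Arguments w => ((value a.2.1 : ℝ) : ℂ))) :=
    FiniteDimensional.span_of_finite ℚ (Set.finite_range _)
  refine (Q146.MZ.dim_zeta h).trans (Submodule.finrank_mono (Submodule.span_le.2 ?_))
  rintro _ ⟨⟨j, hj⟩, rfl⟩
  obtain ⟨hj1, hj2⟩ := Finset.mem_filter.1 hj
  obtain ⟨hj3, hj4⟩ := Finset.mem_Ioc.1 hj1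
  obtain ⟨a, ha⟩ := mem_range_of_odd (w := w) j hj3 hj4
  refine Submodule.subset_span ⟨a, ?_⟩
  simp only
  rw [ha]

/-- **Main result.** Let `x` be a transcendental number and `D` an integer. -/
theorem result :
    -- (1) the multiple zeta values of one weight
    (∀ x : ℂ, Transcendental ℚ x → ∀ D k : ℕ,
      ∃ UU : Set (Submodule ℚ ℂ), UU.Finite ∧
        (∀ y, (y ∈ weight k ∧ Related ℚ D x y) ↔ ∃ U ∈ UU, y ∈ U) ∧
        ∀ U ∈ UU, finrank ℚ (U ⊔ Submodule.span ℚ {1, x} : Submodule ℚ ℂ) ≤ 2 * D) ∧
    -- (2) the multiple zeta values of weight at most `w`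
    (∀ x : ℂ, Transcendental ℚ x → ∀ D w : ℕ,
      ∃ UU : Set (Submodule ℚ ℂ), UU.Finite ∧
        (∀ y, (y ∈ upTo w ∧ Related ℚ D x y) ↔ ∃ U ∈ UU, y ∈ U) ∧
        ∀ U ∈ UU, finrank ℚ (U ⊔ Submodule.span ℚ {1, x} : Submodule ℚ ℂ) ≤ 2 * D) ∧
    -- (3) the dimension of the space of all of them
    (∀ w t : ℕ, 2 ^ (66 * t + 1) ≤ w → t ≤ finrank ℚ (upTo w)) ∧
    -- (4) integral combinations of all multiple zeta values of weight at most `w`
    (∀ x : ℂ, Transcendental ℚ x → ∀ D w t : ℕ, 2 ^ (66 * t + 1) ≤ w →
      ∃ HH : Set (AddSubgroup (Arguments w → ℤ)), HH.Finite ∧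
        (∀ c : Arguments w → ℤ, Related ℚ D x (combination c) ↔ ∃ H ∈ HH, c ∈ H) ∧
        ∀ H ∈ HH, ∀ (r : ℕ) (v : Fin r → (Arguments w → ℤ)), (∀ i, v i ∈ H) →
          LinearIndependent ℤ v → r + t ≤ Nat.card (Arguments w) + 2 * D) ∧
    -- (5) counting, number fields
    (∀ x : ℂ, Transcendental ℚ x → ∀ m D w t : ℕ, 2 ^ (66 * t + 1) ≤ w →
      ∃ C : ℕ, ∀ T : ℕ,
        {c : Arguments w → ℤ | (∀ a, |c a| ≤ T) ∧ RelatedOver m D x (combination c)}.Finite ∧
        {c : Arguments w → ℤ | (∀ a, |c a| ≤ T) ∧ RelatedOver m D x (combination c)}.ncard ≤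
          C * (2 * T + 1) ^ (Nat.card (Arguments w) + 2 * (m * D) - t)) ∧
    -- (6) the number `π`
    Transcendental ℚ ((Real.pi : ℝ) : ℂ) := by
  classical
  have hupfd : ∀ w, FiniteDimensional ℚ (upTo w) := by
    intro w
    rw [upTo_eq]
    exact FiniteDimensional.span_of_finite ℚ (Set.finite_range _)
  refine ⟨fun x hx D k => ?_, fun x hx D w => ?_, fun w t h => ?_, fun x hx D w t h => ?_,
    fun x hx m D w t h => ?_, Pool.Agent.H340R2.LW.transcendental_pi_complex⟩
  · have := weight_finite k
    exact Q146.MZ.space hx D (weight k)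
  · have := hupfd w
    exact Q146.MZ.space hx D (upTo w)
  · rw [upTo_eq]
    exact dim_le h
  · have h1 := Q146.MZ.vectors (fun a : Arguments w => ((value a.2.1 : ℝ) : ℂ)) hx D t (dim_le h)
    rw [Nat.card_eq_fintype_card]
    exact h1
  · have h1 := Q146.MZ.counting (fun a : Arguments w => ((value a.2.1 : ℝ) : ℂ)) hx m D t (dim_le h)
    rw [Nat.card_eq_fintype_card]
    exact h1

end Pool.Agent.Results.MP_f3dc73_nt.RelatedToPi
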