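import Pool.Agent.Q189.ST.Out

/-!
# The algebra generated by the multiple zeta values and the values of multiple polylogarithms at one point

For `0 < x < 1` let `V_M(x)` be the span of the products `Li_s(1 - x) Li_t(x)` with `|s| + |t| = M`; `V_0(x) + V_1(x) + ⋯`
is the algebra generated by all the multiple polylogarithms at `x` and `1 - x`, which contains the multiple zeta values of
weight `M` in `V_M(x)`. Let `Sh` be the shuffle algebra on the words in two letters `false` (the differential form `dz / z`)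
and `true` (the form `dz / (1 - z)`).

* There are homomorphisms of algebras `I_x` from `Sh` to the real numbers (the regularised iterated integrals from `0` to
  `x`) with `I_x(false) = log x` and `I_x(w) = Li_s(x)` for the word `w` of the index `s`, and `V_M(x)` is the sum of the
  spaces `Z_(M-|w|) I_x(w)` over all words `w` of length at most `M`.
* For all `x` in `(0, 1)` outside a countable set and, in the weights up to `N`, for almost all `x = 1/n`, the
  coefficients (in the multiple zeta values of the weights `M - |w|`) are unique: the graded algebra of the `V_M(x)` is the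
  tensor product of the algebra of multiple zeta values and the shuffle algebra on two letters.
* Suppose that a period map exists, a surjective homomorphism of graded algebras from `H = ℚ[π²] ⊗ U F^∨` to the algebra
  of multiple zeta values (this is known: Goncharov, Terasoma, Brown). Then Q1 holds if and only if the graded algebra of
  the `V_M(x)` is isomorphic to `H ⊗ Sh` for one `x` in `(0, 1)`; if and only if this holds for all `x` outside a countable
  set; if and only if for infinitely many `N` there is one integer `n ≥ 2` with a homomorphism of graded algebras from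
  `H ⊗ Sh` onto the algebra of the `V_M(1/n)` which is injective in the degree `N`; if and only if for every `N` there are,
  for almost all `n`, such homomorphisms which are injective in all degrees up to `N`.

Proof. The independence over multiple zeta values at almost all integers is proved in `Pool.Agent.Q189.MV` (transfer of
near relations between values of G-functions at almost all integers, `Pool.Agent.Q189.MF`); one good integer and the identity
theorem give all `x` outside a countable set. The shuffle algebra in the letters `f_3, f_5, …` and its grading are helper249's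
(`Pool.Agent.H249.MZ`). The shuffle relations for the regularised values and the rest of the proof are in
`Pool.Agent.Q189.ST`.
-/

set_option autoImplicit false

open Polynomial
open scoped TensorProduct

namespace Pool.Agent.Results.MP_f3dc73_nt.StructureAtIntegers

/-- The algebra `H` of the problem: the polynomials in `π²` over the shuffle algebra in the letters `f_3, f_5, …`
(words in the natural numbers, the letter `a` stands for `f_(2a+3)`). -/
def H : Type := Polynomial Pool.Agent.H249.MZ.Sh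

/-- The ring structure of the polynomials. -/
noncomputable def ringPoly : CommRing (Polynomial Pool.Agent.H249.MZ.Sh) := inferInstance

/-- The algebra structure of the polynomials. -/
noncomputable def algPoly : Algebra ℚ (Polynomial Pool.Agent.H249.MZ.Sh) := inferInstance

noncomputable instance instRing : CommRing H := ringPoly
noncomputable instance instAlg : Algebra ℚ H := algPoly

/-- The product of `(π²)^i` and the word `u`. -/
noncomputable def el (i : ℕ) (u : List ℕ) : H :=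
  (monomial i (Pool.Agent.H249.MZ.word u) : Polynomial Pool.Agent.H249.MZ.Sh)

/-- The part of degree `n` of `H`, spanned by the products of `(π²)^i` and words `u` with `2 i + (weight of u) = n`. -/
noncomputable def part (n : ℕ) : Submodule ℚ H := Submodule.span ℚ {x : H | ∃ (i : ℕ) (u : List ℕ),
  2 * i + (u.map fun a => 2 * a + 3).sum = n ∧ x = el i u}

/-- The multiple zeta value `ζ(n_1, ..., n_m)`. -/
noncomputable def mzv (m : ℕ) (n : Fin m → ℕ) : ℝ :=
  ∑' k : {k : Fin m → ℕ // StrictMono k ∧ ∀ i, 0 < k i}, ∏ i, (((k.1 i : ℕ) : ℝ) ^ n i)⁻¹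

/-- The space of the multiple zeta values of weight `w`. -/
noncomputable def Z (w : ℕ) : Submodule ℚ ℝ := Submodule.span ℚ {x : ℝ | ∃ m : ℕ, ∃ n : Fin m → ℕ,
  (∀ i, 1 ≤ n i) ∧ (∀ i : Fin m, (i : ℕ) + 1 = m → 2 ≤ n i) ∧ ∑ i, n i = w ∧ x = mzv m n}

/-- A surjective homomorphism of graded algebras from `H` to the algebra of the polynomials `∑ z_w X^w`, `z_w ∈ Z w`. -/
def IsPeriodMap (ev : H →ₐ[ℚ] ℝ[X]) : Prop :=
  ∀ w, ∀ p : ℝ[X], (∃ x ∈ part w, ev x = p) ↔ ∃ z ∈ Z w, monomial w z = p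

/-- Question Q1: there is an isomorphism of graded algebras from `H` to `Z`. -/
def Q1 : Prop := ∃ ev : H →ₐ[ℚ] ℝ[X], IsPeriodMap ev ∧ Function.Injective ev

/-- The truncated sums `∑_{N ≥ n_1 > … > n_k ≥ 1} 1 / (n_1^{s_1} ⋯ n_k^{s_k})`. -/
noncomputable def trunc : List ℕ → ℕ → ℝ
  | [], _ => 1
  | a :: s, N => ∑ n ∈ Finset.range N, 1 / ((n : ℝ) + 1) ^ a * trunc s n

/-- The multiple polylogarithm `Li_s(x) = ∑_{n_1 > … > n_k ≥ 1} x^{n_1} / (n_1^{s_1} ⋯ n_k^{s_k})`. -/
noncomputable def Li : List ℕ → ℝ → ℝ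
  | [], _ => 1
  | a :: s, x => ∑' n : ℕ, x ^ (n + 1) / ((n : ℝ) + 1) ^ a * trunc s n

/-- `V_M(x)`: the span of the products `Li_s(1 - x) Li_t(x)` with `|s| + |t| = M`. -/
noncomputable def V (x : ℝ) (M : ℕ) : Submodule ℚ ℝ :=
  Submodule.span ℚ {r | ∃ s t : List ℕ, (∀ a ∈ s, 1 ≤ a) ∧ (∀ a ∈ t, 1 ≤ a) ∧ s.sum + t.sum = M ∧
    r = Li s (1 - x) * Li t x}

/-- The shuffle algebra on the words in the two letters `false` and `true`. -/
abbrev Sh : Type := Pool.Agent.Q189.ST.Sh

/-- The word `w` as an element of the shuffle algebra. -/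
noncomputable abbrev word (w : List Bool) : Sh := Pool.Agent.Q189.ST.word w

/-- The word of the index `(s_1, …, s_k)`: the blocks `false ^ (s_i - 1) true`. -/
def index : List ℕ → List Bool
  | [] => []
  | a :: s => List.replicate (a - 1) false ++ true :: index s

/-- The words of length at most `M`. -/
def words (M : ℕ) : Finset (List Bool) :=
  (Finset.range (M + 1)).biUnion fun k => (Finset.univ : Finset (Fin k → Bool)).image List.ofFn

/-- In the weights up to `N` the coefficients in the multiple zeta values of the combinations of the numbers `J(w)` are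
unique. -/
def Unique (J : Sh →ₐ[ℚ] ℝ) (N : ℕ) : Prop := ∀ M ≤ N, ∀ z z' : List Bool → ℝ,
  (∀ w, w.length ≤ M → z w ∈ Z (M - w.length)) → (∀ w, w.length ≤ M → z' w ∈ Z (M - w.length)) →
  ∑ w ∈ words M, z w * J (word w) = ∑ w ∈ words M, z' w * J (word w) → ∀ w, w.length ≤ M → z w = z' w

/-- The part of degree `M` of `H ⊗ Sh` (a word has the degree of its length). -/
noncomputable def K (M : ℕ) : Submodule ℚ (H ⊗[ℚ] Sh) :=
  Submodule.span ℚ {y | ∃ (i : ℕ) (h : H) (w : List Bool), h ∈ part i ∧ i + w.length = M ∧ y = h ⊗ₜ[ℚ] word w}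

/-- `ψ` is a homomorphism of graded algebras from `H ⊗ Sh` onto the algebra of the polynomials `∑ v_M X^M`,
`v_M ∈ V_M(x)`. -/
def Onto (x : ℝ) (ψ : H ⊗[ℚ] Sh →ₐ[ℚ] ℝ[X]) : Prop :=
  ∀ (M : ℕ) (p : ℝ[X]), (∃ y ∈ K M, ψ y = p) ↔ ∃ v ∈ V x M, monomial M v = p

/-- A property of `n` holds for all `n` in `[3, T]` but at most `C T^(1-c)`, for all `T ≥ 1`. -/
def AlmostAll (A : ℕ → Prop) : Prop := ∃ C c : ℝ, 0 < c ∧ ∀ T : ℕ, 1 ≤ T →
  (({n : ℕ | 3 ≤ n ∧ n ≤ T ∧ ¬ A n}.ncard : ℕ) : ℝ) ≤ C * (T : ℝ) ^ (1 - c)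

/-- A property holds for all `x` in `(0, 1)` outside a countable set. -/
def CoCountable (A : ℝ → Prop) : Prop := ∃ S : Set ℝ, S.Countable ∧ ∀ x, x ∉ S → 0 < x → x < 1 → A x

/-- For `0 < x < 1`: `I_x(false) = log x`, `I_x(w) = Li_s(x)` for the word `w` of `s`, and `V_M(x)` is the set of the
combinations of the `I_x(w)`, `|w| ≤ M`, with coefficients in `Z_(M-|w|)`. -/
def IsValues (I : ℝ → (Sh →ₐ[ℚ] ℝ)) : Prop := ∀ x : ℝ, 0 < x → x < 1 → I x (word [false]) = Real.log x ∧
  (∀ s : List ℕ, (∀ a ∈ s, 1 ≤ a) → I x (word (index s)) = Li s x) ∧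
  ∀ (M : ℕ) (v : ℝ), v ∈ V x M ↔ ∃ z : List Bool → ℝ, (∀ w, w.length ≤ M → z w ∈ Z (M - w.length)) ∧
    v = ∑ w ∈ words M, z w * I x (word w)

/-- The graded algebras `H ⊗ Sh` and `V(x)` are isomorphic. -/
def Iso (x : ℝ) : Prop := ∃ ψ : H ⊗[ℚ] Sh →ₐ[ℚ] ℝ[X], Onto x ψ ∧ Function.Injective ψ

/-- There is a homomorphism of graded algebras from `H ⊗ Sh` onto `V(x)` which is injective in the degrees between `N₁`
and `N₂`. -/
def IsoIn (x : ℝ) (N₁ N₂ : ℕ) : Prop :=
  ∃ ψ : H ⊗[ℚ] Sh →ₐ[ℚ] ℝ[X], Onto x ψ ∧ ∀ M : ℕ, N₁ ≤ M → M ≤ N₂ → ∀ y ∈ K M, ψ y = 0 → y = 0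

open Pool.Agent.Q189.ST in
lemma words_eq (M : ℕ) : words M = Pool.Agent.Q189.ST.words M := by
  ext w
  rw [Pool.Agent.Q189.ST.mem_words]
  unfold words
  rw [Finset.mem_biUnion]
  constructor
  · rintro ⟨k, hk, hw⟩
    obtain ⟨u, -, rfl⟩ := Finset.mem_image.1 hw
    rw [Finset.mem_range] at hk
    rw [List.length_ofFn]
    omega
  · intro h
    refine ⟨w.length, Finset.mem_range.2 (by omega), Finset.mem_image.2 ⟨w.get, Finset.mem_univ _, List.ofFn_get w⟩⟩

/-- (1) the homomorphisms `I x`, the logarithm, the polylogarithms and the spaces `V_M(x)`; (2) uniqueness of the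
coefficients outside a countable set, and at almost all `1/n`; (3) the criteria for Q1. -/
theorem result :
    (∃ I : ℝ → (Sh →ₐ[ℚ] ℝ), IsValues I ∧ CoCountable (fun x => ∀ N, Unique (I x) N) ∧
      ∀ N : ℕ, AlmostAll fun n => Unique (I (1 / n)) N) ∧
    ∀ ev : H →ₐ[ℚ] ℝ[X], IsPeriodMap ev →
      (Q1 ↔ ∃ x : ℝ, 0 < x ∧ x < 1 ∧ Iso x) ∧
      (Q1 ↔ CoCountable Iso) ∧
      (Q1 ↔ ∀ N₀ : ℕ, ∃ N n : ℕ, N₀ ≤ N ∧ 2 ≤ n ∧ IsoIn (1 / n) N N) ∧
      (Q1 ↔ ∀ N : ℕ, AlmostAll fun n => IsoIn (1 / n) 0 N) := by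
  have ht : trunc = Pool.Agent.Q189.MV.trunc := by
    funext s
    induction s with
    | nil => rfl
    | cons a s ih =>
      funext N
      show ∑ n ∈ Finset.range N, 1 / ((n : ℝ) + 1) ^ a * trunc s n =
        ∑ n ∈ Finset.range N, 1 / ((n : ℝ) + 1) ^ a * Pool.Agent.Q189.MV.trunc s n
      rw [ih]
  have hL : Li = Pool.Agent.Q189.MV.Lis := by
    funext s x
    rcases s with _ | ⟨a, s⟩
    · rfl
    · show ∑' n : ℕ, x ^ (n + 1) / ((n : ℝ) + 1) ^ a * trunc s n =
        ∑' n : ℕ, x ^ (n + 1) / ((n : ℝ) + 1) ^ a * Pool.Agent.Q189.MV.trunc s n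
      rw [ht]
  have hV : V = Pool.Agent.Q189.MV.Spc := by
    funext x M
    unfold V Pool.Agent.Q189.MV.Spc
    rw [hL]
  have hZ : Z = Pool.Agent.H447R2.MZ.Zs := Pool.Agent.Q189.ST.ZM_eq
  have hidx : index = Pool.Agent.Q189.ST.idx := by
    funext s
    induction s with
    | nil => rfl
    | cons a s ih =>
      show List.replicate (a - 1) false ++ true :: index s = List.replicate (a - 1) false ++ true :: Pool.Agent.Q189.ST.idx s
      rw [ih]
  set I : ℝ → (Sh →ₐ[ℚ] ℝ) := fun x => if h : 0 < x ∧ x < 1 then Pool.Agent.Q189.ST.P x h.1 h.2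
    else Pool.Agent.Q189.ST.P (1 / 2) (by norm_num) (by norm_num) with hI
  have hIw : ∀ x : ℝ, 0 < x → x < 1 → ∀ w, I x (word w) = Pool.Agent.Q189.ST.f w x := by
    intro x hx hx1 w
    rw [hI]
    simp only [dif_pos (And.intro hx hx1)]
    exact Pool.Agent.Q189.ST.P_word x hx hx1 w
  have hU : ∀ x : ℝ, 0 < x → x < 1 → ∀ N, Pool.Agent.Q189.ST.Uniq x N → Unique (I x) N := by
    intro x hx hx1 N h
    unfold Unique
    simp only [hIw x hx hx1, words_eq, hZ]
    exact h
  have hon : ∀ x : ℝ, 0 < x → x < 1 → ∀ ψ : H ⊗[ℚ] Sh →ₐ[ℚ] ℝ[X], Onto x ψ ↔ Pool.Agent.Q189.ST.Gsur Pool.Agent.H249.MZ.deg x ψ := by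
    intro x hx hx1 ψ
    unfold Onto
    simp only [hV, Pool.Agent.Q189.MV.Spc_eq hx hx1]
    rfl
  have hper : ∀ ev : H →ₐ[ℚ] ℝ[X], IsPeriodMap ev ↔ Pool.Agent.Q189.ST.Per Pool.Agent.H249.MZ.deg ev := by
    intro ev
    rw [Pool.Agent.Q189.ST.per_iff]
    rfl
  have hQ : Q1 ↔ Pool.Agent.Q189.ST.Q1 := exists_congr fun ev => and_congr (hper ev) Iff.rfl
  have hK : K = Pool.Agent.Q189.ST.K Pool.Agent.H249.MZ.deg := rfl
  have hiso : ∀ x : ℝ, 0 < x → x < 1 → ((∃ ψ : H ⊗[ℚ] Sh →ₐ[ℚ] ℝ[X],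
      Pool.Agent.Q189.ST.Gsur Pool.Agent.H249.MZ.deg x ψ ∧ Function.Injective ψ) ↔ Iso x) := by
    intro x hx hx1
    refine exists_congr fun ψ => ?_
    rw [hon x hx hx1]
  refine ⟨⟨I, fun x hx hx1 => ⟨?_, fun s hs => ?_, fun M v => ?_⟩, ?_, fun N => ?_⟩, fun ev hev => ⟨?_, ?_, ?_, ?_⟩⟩
  · rw [hIw x hx hx1, Pool.Agent.Q189.ST.f_false]
  · rw [hIw x hx hx1, hidx, hL]
    exact Pool.Agent.Q189.ST.f_idx hs hx hx1
  · rw [hV, Pool.Agent.Q189.MV.Spc_eq hx hx1, Pool.Agent.Q189.ST.VN_words hx hx1, Pool.Agent.Q189.ST.mem_Ps, hZ]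
    simp only [hIw x hx hx1, words_eq]
  · obtain ⟨S, hS, h⟩ := Pool.Agent.Q189.ST.uniq_ctble
    exact ⟨S, hS, fun x hxS hx hx1 N => hU x hx hx1 N (h x hxS hx hx1 N)⟩
  · obtain ⟨C, c, hc, hf⟩ := Pool.Agent.Q189.ST.uniq_few N
    refine ⟨C, c, hc, fun T hT => le_trans (Nat.cast_le.2 (Set.ncard_le_ncard ?_
      ((Set.finite_le_nat T).subset fun n hn => hn.2.1))) (hf T hT)⟩
    rintro n ⟨h1, h2, h3⟩
    obtain ⟨hx, hx1⟩ := Pool.Agent.Q189.MV.inv_pos_lt (show 2 ≤ n by omega)
    exact ⟨h1, h2, fun h => h3 (hU _ hx hx1 N h)⟩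
  · rw [hQ, Pool.Agent.Q189.ST.crit_one ((hper ev).1 hev)]
    exact exists_congr fun x => and_congr_right fun hx => and_congr_right fun hx1 => hiso x hx hx1
  · rw [hQ, Pool.Agent.Q189.ST.crit_all ((hper ev).1 hev)]
    exact exists_congr fun S => and_congr_right fun hS => forall_congr' fun x => forall_congr' fun hxS =>
      forall_congr' fun hx => forall_congr' fun hx1 => hiso x hx hx1
  · rw [hQ, Pool.Agent.Q189.ST.crit_int ((hper ev).1 hev)]
    refine forall_congr' fun N₀ => exists_congr fun N => exists_congr fun n => and_congr_right fun hN =>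
      and_congr_right fun hn => exists_congr fun ψ => ?_
    obtain ⟨hx, hx1⟩ := Pool.Agent.Q189.MV.inv_pos_lt hn
    rw [hon _ hx hx1, hK]
    constructor
    · rintro ⟨h1, h2⟩
      refine ⟨h1, fun M hM hM' => ?_⟩
      rw [le_antisymm hM' hM]
      exact h2
    · rintro ⟨h1, h2⟩
      exact ⟨h1, h2 N le_rfl le_rfl⟩
  · rw [hQ, Pool.Agent.Q189.ST.crit_few ((hper ev).1 hev)]
    have hset : ∀ N T : ℕ, {n : ℕ | 3 ≤ n ∧ n ≤ T ∧ ¬ ∃ ψ : H ⊗[ℚ] Sh →ₐ[ℚ] ℝ[X],
        Pool.Agent.Q189.ST.Gsur Pool.Agent.H249.MZ.deg (1 / n) ψ ∧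
          ∀ M ≤ N, ∀ y ∈ Pool.Agent.Q189.ST.K Pool.Agent.H249.MZ.deg M, ψ y = 0 → y = 0} =
        {n : ℕ | 3 ≤ n ∧ n ≤ T ∧ ¬ IsoIn (1 / n) 0 N} := by
      intro N T
      ext n
      refine and_congr_right fun hn => and_congr_right fun _ => not_congr (exists_congr fun ψ => ?_)
      obtain ⟨hx, hx1⟩ := Pool.Agent.Q189.MV.inv_pos_lt (show 2 ≤ n by omega)
      exact and_congr (hon _ hx hx1 ψ).symm ⟨fun h M _ hM => h M hM, fun h M hM => h M (Nat.zero_le _) hM⟩
    exact forall_congr' fun N => exists_congr fun C => exists_congr fun c => and_congr_right fun _ =>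
      forall_congr' fun T => forall_congr' fun _ =>
        Iff.of_eq (congrArg (fun k : ℕ => (k : ℝ) ≤ C * (T : ℝ) ^ (1 - c)) (congrArg Set.ncard (hset N T)))

end Pool.Agent.Results.MP_f3dc73_nt.StructureAtIntegers
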